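import Mathlib
import Pool.Agent.Work.MP_484fb8_nt.Defs
import Pool.Agent.Work.MP_484fb8_nt.Poly.RatPoly

set_option autoImplicit false

open Finset Pool.Agent.Work.MP_484fb8_nt

namespace Pool.Agent.Work.MP_484fb8_nt.Old.PolynomialValues

open scoped Classical in
/-- There is an absolute constant `c > 0` such that for every non-constant polynomial `f` with
rational coefficients and positive leading coefficient that takes integer values on the natural
numbers, and for every exponent `A`: for all but `O_{f,A}(X / (log X)^A)` of the integers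
`1 ≤ k ≤ X`, the value `f(k)` is not an exception to Q1. That is, if `m = f(k)` is an even integer of
the interval `ℐ_{n+1}`, `n ≥ 1`, then `m = p + q` with primes `p ∈ 𝒫_n` and `q ∈ 𝒫_n ∪ 𝒫_{n+1}`, and
there are at least `c #(n) / (log #(n))^2` such representations. -/
theorem result : ∃ c : ℝ, 0 < c ∧ ∀ f : Polynomial ℚ, 1 ≤ f.natDegree → 0 < f.leadingCoeff →
    (∀ k : ℕ, ∃ z : ℤ, f.eval (k : ℚ) = z) → ∀ A : ℕ, ∃ C : ℝ, ∀ X : ℕ, 2 ≤ X →
    (#{k ∈ Icc 1 X | ∃ n : ℕ, 1 ≤ n ∧ ∃ m ∈ evensIn (n + 1), f.eval ((k : ℕ) : ℚ) = (m : ℚ) ∧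
      ¬ ((∃ p ∈ primesIn n, ∃ q ∈ primesIn n ∪ primesIn (n + 1), m = p + q) ∧
        c * (prml n / (Real.log (prml n)) ^ 2) ≤ primorialReps n m)} : ℝ)
      ≤ C * (X / (Real.log X) ^ A) := by
  refine ⟨1 / 512, by norm_num, fun f hd hlc hint A => ?_⟩
  obtain ⟨C, hC⟩ := Poly.rat_poly f hd hlc hint A
  refine ⟨C, fun X hX => ?_⟩
  refine le_trans ?_ (hC X hX)
  norm_cast
  apply card_le_card
  intro k hk
  rw [mem_filter] at hk ⊢
  obtain ⟨hkI, n, hn, m, hm, hfm, hnot⟩ := hk
  refine ⟨hkI, n, hn, m, hm, hfm, ?_⟩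
  have h2 : 2 ≤ prml n := by have := le_prml n; omega
  have h2r : (2 : ℝ) ≤ prml n := by exact_mod_cast h2
  have hlog : 0 < Real.log (prml n) := Real.log_pos (by linarith)
  have hpos : 0 < (1 / 512 : ℝ) * ((prml n : ℝ) / (Real.log (prml n)) ^ 2) := by positivity
  by_contra hge
  push Not at hge
  apply hnot
  refine ⟨?_, hge⟩
  have h3 : (0 : ℝ) < primorialReps n m := lt_of_lt_of_le hpos hge
  have h4 : 0 < primorialReps n m := by exact_mod_cast h3
  unfold primorialReps at h4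
  rw [Finset.card_pos] at h4
  obtain ⟨⟨p, q⟩, hz⟩ := h4
  rw [mem_filter, mem_product] at hz
  exact ⟨p, hz.1.1, q, hz.1.2, hz.2.symm⟩

end Pool.Agent.Work.MP_484fb8_nt.Old.PolynomialValues
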