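import Mathlib
import Pool.Agent.Work.MP_484fb8_nt.Defs
import Pool.Agent.Work.PS.MainB

set_option autoImplicit false

open Finset Pool.Agent.Work.MP_484fb8_nt

namespace Pool.Agent.Work.MP_484fb8_nt.Old.PowerSaving

/-- There are absolute constants `δ, c > 0` and integers `r(1), r(2), …`, which grow faster than
every power of `log #(n+1)`, such that, for every `ε > 0` and every `n ≥ 1`, all but
`O_ε(|ℰ_{n+1}|^(1 - δ))` of the even integers `m ∈ ℰ_{n+1}` satisfy: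
`m = p + q` with primes `p ∈ 𝒫_n` and `q ∈ 𝒫_n ∪ 𝒫_{n+1}`; `m` has at least `c'(ε) #(n)^(1 - ε)`
such representations; and if `r(n)` does not divide `m`, then `m` has at least
`c (m / φ(m)) #(n) / (log #(n))^2` such representations, the expected order of magnitude. -/
theorem result :
    ∃ δ c : ℝ, 0 < δ ∧ 0 < c ∧ ∃ r : ℕ → ℕ,
      (∀ A : ℕ, ∃ C : ℝ, ∀ n : ℕ, 1 ≤ n → (Real.log (prml (n + 1))) ^ A ≤ C * r n) ∧
      ∀ ε : ℝ, 0 < ε → ∃ C c' : ℝ, 0 < c' ∧ ∀ n : ℕ, 1 ≤ n →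
        (#{m ∈ evensIn (n + 1) |
          ¬ ((∃ p ∈ primesIn n, ∃ q ∈ primesIn n ∪ primesIn (n + 1), m = p + q) ∧
            c' * (prml n : ℝ) ^ (1 - ε) ≤ primorialReps n m ∧
            (¬ r n ∣ m → c * ((m : ℝ) / m.totient) * (prml n / (Real.log (prml n)) ^ 2)
              ≤ primorialReps n m))} : ℝ)
          ≤ C * (#(evensIn (n + 1)) : ℝ) ^ (1 - δ) := by
  obtain ⟨δ, c, h1, h2, r, h3, h4⟩ := Pool.Agent.PS.main_finalb
  refine ⟨δ, c, h1, h2, r, h3, fun ε hε => ?_⟩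
  obtain ⟨C, c', h5, h6⟩ := h4 ε hε
  refine ⟨C, c', h5, fun n hn => ?_⟩
  refine le_trans (le_of_eq ?_) (h6 n hn)
  refine congrArg (fun s : Finset ℕ => ((s.card : ℕ) : ℝ)) ?_
  ext m
  simp only [mem_filter]

end Pool.Agent.Work.MP_484fb8_nt.Old.PowerSaving
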